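import Mathlib
import Pool.Agent.N176.OW.Stm2

set_option autoImplicit false

/-!
# Optimal windows: the exponential moment of a fixed set of minimal exponents (E4)
-/

namespace Pool.Agent.N545.OW

open Finset
open Pool.Agent.H305R2 (roughPart)
open Pool.Agent.N176.OW

lemma div_eq {b t p p1 : ℕ} (hb : 0 < b) (h1 : p1 ≤ p) (h2 : p ≤ t) (m r : ℕ) :
    (b ^ (t - p1) * m + r) / b ^ (t - p) = b ^ (p - p1) * m + r / b ^ (t - p) := by
  have e : b ^ (t - p1) = b ^ (t - p) * b ^ (p - p1) := by rw [← pow_add]; congr 1; omega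
  rw [e, mul_assoc, Nat.mul_add_div (by positivity)]

lemma deg_iff {b t p q p1 : ℕ} (hb : 0 < b) (h1 : p1 ≤ p) (h2 : p ≤ q) (h3 : q ≤ t) (m r : ℕ) :
    Deg b t p q (b ^ (t - p1) * m + r) ↔ Deg b t p q r := by
  unfold Deg
  rw [div_eq hb (h1.trans h2) h3, div_eq hb h1 (h2.trans h3), mul_add, ← mul_assoc, ← pow_add,
    show q - p + (p - p1) = q - p1 by omega]
  exact Nat.add_left_cancel_iff

lemma run_eq {b t p p1 : ℕ} (hb : 0 < b) (h1 : p1 ≤ p) (m r : ℕ) :
    run b t p (b ^ (t - p1) * m + r) = run b t p r := by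
  unfold run
  congr 1
  apply Finset.filter_congr
  intro q hq
  rw [mem_Ioc] at hq
  exact deg_iff hb h1 hq.1.le hq.2 m r

open Classical in
theorem e4 (h1 : S_TU) (h2 : S_DS) : S_E4 := by
  intro b hb
  obtain ⟨C, hC, P, hP⟩ := h1 b hb
  refine ⟨4 * C, by linarith, P, ?_⟩
  intro x hx T hT z hz t ht j hj s hs0 hs1 F hFT hFne hFc
  have hb0 : 0 < b := by omega
  have hFx : ∀ p ∈ F, x < p ∧ p ≤ 2 * x := fun p hp => hT p (hFT hp)
  obtain ⟨p1, hp1, hmin⟩ : ∃ p1 ∈ F, ∀ p ∈ F, p1 ≤ p :=
    ⟨F.min' hFne, F.min'_mem hFne, fun p hp => F.min'_le p hp⟩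
  have hpx := hFx p1 hp1
  have hFt : ∀ p ∈ F, p ≤ t := fun p hp => ((hFx p hp).2).trans ht
  have htu := hP x hx F hFx hFc p1 hp1 hmin z hz t ht
  have hds := h2 b hb s hs0 hs1 t F hFt p1 hp1 hmin
  set B := b ^ (t - p1) with hB
  set W : ℕ → ℝ := fun r => ∏ p ∈ F, ((1 + s) ^ (1 + run b t p r) - 1) with hW
  have hW0 : ∀ r, 0 ≤ W r := fun r => Finset.prod_nonneg fun p _ =>
    sub_nonneg.mpr (one_le_pow₀ (by linarith))
  have hWe : ∀ m r, W (B * m + r) = W r := fun m r =>
    Finset.prod_congr rfl fun p hp => by rw [run_eq hb0 (hmin p hp)]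
  set K : ℝ := (C * F.card * (Real.log x / x)) ^ F.card * (b : ℝ) ^ (p1 - z) with hK
  have hK0 : 0 ≤ K := by
    rw [hK]
    have : 0 ≤ Real.log x := Real.log_natCast_nonneg x
    positivity
  have e : b ^ (t - z) = b ^ (p1 - z) * B := by rw [hB, ← pow_add]; congr 1; omega
  have hcell : cell b z t j = Ico ((j * b ^ (p1 - z)) * B) (((j + 1) * b ^ (p1 - z)) * B) := by
    unfold cell
    rw [e, mul_assoc, mul_assoc]
  have hcell2 : cell b z p1 j = Ico (j * b ^ (p1 - z)) ((j + 1) * b ^ (p1 - z)) := rfl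
  rw [Finset.sum_filter, hcell, Pool.Agent.N176.GP.sum_cells _ _ _
    (Nat.mul_le_mul_right _ (Nat.le_succ j)), ← hcell2, Finset.sum_comm]
  -- the bound for one value of the last digits
  have hr : ∀ r ∈ range B, ∑ m ∈ cell b z p1 j,
      (if ¬ Big T b t x (m * B + r) ∧ F ⊆ mhits T b t (m * B + r) then
        ∏ p ∈ F, ((1 + s) ^ (1 + run b t p (m * B + r)) - 1) else 0) ≤
      if (∀ p ∈ F, ∀ q ∈ F, p < q → ¬ Deg b t p q r) then W r * K else 0 := by
    intro r hr
    rw [mem_range] at hr
    split_ifs with hnd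
    · have ht1 := htu r hr hnd j hj
      rw [← Finset.sum_boole] at ht1
      calc _ ≤ ∑ m ∈ cell b z p1 j, W r * (if (∀ p ∈ F,
              (roughPart p ((B * m + r) / b ^ (t - p))).Prime ∧
              (((B * m + r) / b ^ (t - p) / roughPart p ((B * m + r) / b ^ (t - p)) : ℕ) : ℝ) <
                Real.exp (x * Real.log b / 8)) then 1 else 0) := by
            refine Finset.sum_le_sum fun m hm => ?_
            rw [mul_comm m B]
            split_ifs with ha hb' hb'
            · rw [mul_one]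
              exact (hWe m r).le
            · exfalso
              apply hb'
              intro p hp
              have hpm := ha.2 hp
              unfold mhits hits at hpm
              simp only [mem_filter] at hpm
              refine ⟨hpm.1.2, ?_⟩
              by_contra hcon
              exact ha.1 ⟨p, hFT hp, hpm.1.2, not_lt.mp hcon⟩
            · rw [mul_one]
              exact hW0 r
            · rw [mul_zero]
        _ ≤ W r * K := by
            rw [← Finset.mul_sum]
            exact mul_le_mul_of_nonneg_left ht1 (hW0 r)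
    · apply le_of_eq
      apply Finset.sum_eq_zero
      intro m hm
      rw [mul_comm m B]
      rw [if_neg]
      rintro ⟨ha1, ha2⟩
      apply hnd
      intro p hp q hq hpq hd
      have hqm := ha2 hq
      have hpm := ha2 hp
      unfold mhits at hqm hpm
      rw [mem_filter] at hqm hpm
      refine hqm.2 p hpm.1 hpq ?_
      rw [hB]
      exact (deg_iff hb0 (hmin p hp) hpq.le (hFt q hq) m r).mpr hd
  refine (Finset.sum_le_sum hr).trans ?_
  rw [← Finset.sum_filter, ← Finset.sum_mul]
  refine (mul_le_mul_of_nonneg_right hds hK0).trans (le_of_eq ?_)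
  have e' : (b : ℝ) ^ (t - z) = (b : ℝ) ^ (p1 - z) * (b : ℝ) ^ (t - p1) := by
    rw [← pow_add]; congr 1; omega
  rw [hK, e', show 4 * C * s * F.card * (Real.log x / x) = (4 * s) * (C * F.card * (Real.log x / x)) by ring,
    mul_pow]
  ring

end Pool.Agent.N545.OW
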